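import Pool.Agent.Lib.MP_140312_al_Chain.Defs

/-!
# Definitions: separable subgroups
-/

namespace Pool.Agent.Lib.MP_140312_al_Sep

/-- The subgroup `H` of `G` is separable: it is an intersection of subgroups of finite index,
that is, every element outside `H` lies outside some subgroup of finite index containing `H`. -/
def IsSeparable {G : Type*} [Group G] (H : Subgroup G) : Prop :=
  ∀ g ∉ H, ∃ K : Subgroup G, K.FiniteIndex ∧ H ≤ K ∧ g ∉ K

end Pool.Agent.Lib.MP_140312_al_Sep
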