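import Pool.Agent.Lib.MP_140312_al_Sep.Main

/-!
# Common stabilisers of windows are finitely generated; subgroup separable groups
-/

namespace Pool.Agent.Lib.MP_140312_al_Sep

open Pool.Agent.Lib.MP_140312_al Pool.Agent.Lib.MP_140312_al_Chain

variable {V : Type*} {G : Type*} [Group G] [MulAction G V] {X : SimpleGraph V}

/-- A subgroup acting cocompactly on a nonempty convex set of vertices is finitely generated. -/
lemma fg_of_cocompact (hG : GeometricAction G X) (hc : X.Connected) {M : Subgroup G} {Z F : Set V}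
    (hZ : GConvex X Z) (hM : ∀ k ∈ M, ∀ v, k • v ∈ Z ↔ v ∈ Z) (hF : F.Finite) (hFZ : F ⊆ Z)
    (hcov : ∀ v ∈ Z, ∃ k ∈ M, k • v ∈ F) (hne : Z.Nonempty) : M.FG := by
  classical
  obtain ⟨z, hz⟩ := hne
  obtain ⟨k₀, _, hw₀⟩ := hcov z hz
  set w₀ := k₀ • z with hw₀'
  -- the finite generating set
  set S : Set G := {γ | γ ∈ M ∧ ∃ w ∈ F, ∃ w' ∈ F, X.dist w (γ • w') ≤ 1} with hS
  have hSf : S.Finite := by
    have h1 : S ⊆ ⋃ w ∈ F, ⋃ w' ∈ F, {γ : G | X.dist w' (γ • w') ≤ X.dist w' w + 1} := by
      rintro γ ⟨_, w, hw, w', hw', hd⟩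
      simp only [Set.mem_iUnion]
      refine ⟨w, hw, w', hw', ?_⟩
      have : X.dist w' (γ • w') ≤ X.dist w' w + X.dist w (γ • w') := hc.dist_triangle
      show X.dist w' (γ • w') ≤ _
      omega
    exact (hF.biUnion fun w _ => hF.biUnion fun w' _ => finite_displacement hG hc _ _).subset h1
  have hSM : Subgroup.closure S ≤ M := by
    rw [Subgroup.closure_le]
    rintro γ ⟨hγ, _⟩
    exact hγ
  -- every point of `Z` is moved into `F` by an element of the closure, by induction on distance
  have key : ∀ n : ℕ, ∀ v ∈ Z, X.dist w₀ v = n → ∀ g ∈ M, ∀ w ∈ F, g • w = v →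
      g ∈ Subgroup.closure S := by
    intro n
    induction n with
    | zero =>
      intro v hv hd g hg w hw hgw
      have h1 : w₀ = v := (hc.dist_eq_zero_iff).1 hd
      refine Subgroup.subset_closure ⟨hg, w₀, hw₀, w, hw, ?_⟩
      rw [hgw, h1]
      simp
    | succ n ih =>
      intro v hv hd g hg w hw hgw
      -- a neighbour of `v` on a geodesic to `w₀`
      obtain ⟨p, hp⟩ := hc.exists_walk_length_eq_dist v w₀
      rw [SimpleGraph.dist_comm, hd] at hp
      obtain ⟨u, hvu, hu⟩ : ∃ u, X.Adj v u ∧ X.dist w₀ u = n := by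
        cases p with
        | nil => simp at hp
        | cons hadj q =>
          refine ⟨_, hadj, ?_⟩
          rw [SimpleGraph.Walk.length_cons] at hp
          have h1 := SimpleGraph.dist_le q
          rename_i u'
          have h2 : X.dist w₀ v ≤ X.dist w₀ u' + X.dist u' v := hc.dist_triangle
          rw [SimpleGraph.dist_eq_one_iff_adj.2 hadj.symm] at h2
          rw [SimpleGraph.dist_comm] at h1
          omega
      have huZ : u ∈ Z := by
        refine hZ w₀ (hFZ hw₀) v hv u ?_
        rw [SimpleGraph.dist_eq_one_iff_adj.2 hvu.symm]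
        omega
      obtain ⟨k, hk, hku⟩ := hcov u huZ
      have h1 : k⁻¹ ∈ Subgroup.closure S :=
        ih u huZ hu k⁻¹ (inv_mem hk) (k • u) hku (inv_smul_smul _ _)
      have h2 : k * g ∈ Subgroup.closure S := by
        refine Subgroup.subset_closure ⟨mul_mem hk hg, k • u, hku, w, hw, ?_⟩
        rw [mul_smul, hgw, dist_smul hG hc, SimpleGraph.dist_eq_one_iff_adj.2 hvu.symm]
      have h3 : g = k⁻¹ * (k * g) := by group
      rw [h3]
      exact mul_mem h1 h2
  have heq : Subgroup.closure S = M := by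
    refine le_antisymm hSM fun g hg => ?_
    have hgZ : g • w₀ ∈ Z := (hM g hg w₀).2 (hFZ hw₀)
    exact key _ (g • w₀) hgZ rfl g hg w₀ hw₀ rfl
  rw [← heq]
  exact ⟨hSf.toFinset, by simp⟩

/-- Windows of flats are finitely generated. -/
lemma window_fg (h : IsMedianGraph X) (hG : GeometricAction G X) {f : ℤ → ℤ → V}
    (hf : IsFlat X f) (a : ℤ) (n : ℕ) : (window G (vertical X f) a n).FG := by
  obtain ⟨F, hFR, hF, hcov⟩ := rows_cocompact hG h.connected (2 * n + 1) (seq (vertical X f) a n)
  have hwin : commonStab G {A | ∃ i < 2 * n + 1, A = seq (vertical X f) a n i} =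
      window G (vertical X f) a n := (window_eq _ a n).symm
  rw [hwin] at hcov
  refine fg_of_cocompact hG h.connected (gconvex_rows h _ _) ?_ hF hFR hcov
    ⟨_, mem_rows_flat h hf a 0 n⟩
  intro k hk v
  apply smul_rows hG h.connected
  intro i hi w
  exact mem_window.1 hk _ (by rw [abs_le]; omega) w

/-- The final statement: separable windows, or all finitely generated subgroups separable. -/
theorem main (h : IsMedianGraph X) (hG : GeometricAction G X)
    (hsep : (∀ H : Subgroup G, H.FG → IsSeparable H) ∨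
      ∀ f, IsFlat X f → (∃ n, ∀ a, IsSeparable (window G (vertical X f) a n)) ∨
        (∃ n, ∀ a, IsSeparable (window G (horizontal X f) a n))) :
    (∃ φ : Multiplicative (ℤ × ℤ) →* G, Function.Injective φ) ∨ IsHyperbolic X := by
  rcases hsep with hlerf | hsep
  · exact z2_or_hyperbolic h hG fun f hf => Or.inl ⟨0, fun a => hlerf _ (window_fg h hG hf a 0)⟩
  · exact z2_or_hyperbolic h hG hsep

end Pool.Agent.Lib.MP_140312_al_Sep
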