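import Pool.Agent.Lib.MP_140312_al_Sep.Separate

/-!
# Separable windows along one flat give `ℤ × ℤ`
-/

namespace Pool.Agent.Lib.MP_140312_al_Sep

open Pool.Agent.Lib.MP_140312_al Pool.Agent.Lib.MP_140312_al_Chain

variable {V : Type*} {G : Type*} [Group G] [MulAction G V] {X : SimpleGraph V}

/-- A subgroup of finite index acts geometrically. -/
lemma geometricAction_subgroup (hG : GeometricAction G X) (N : Subgroup G) (hN : N.FiniteIndex) :
    GeometricAction N X where
  adj_iff := fun g x y => hG.adj_iff g x y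
  finite_stabilizer := fun x => by
    refine Set.Finite.of_finite_image ((hG.finite_stabilizer x).subset ?_)
      (Subtype.val_injective (p := fun g => g ∈ N)).injOn
    rintro _ ⟨g, hg, rfl⟩
    exact hg
  cocompact := by
    obtain ⟨D, hD, hcov⟩ := hG.cocompact
    have hfin : Finite (G ⧸ N) := Subgroup.finite_quotient_of_finiteIndex
    refine ⟨⋃ q : G ⧸ N, (fun v => (Quotient.out q : G)⁻¹ • v) '' D,
      Set.finite_iUnion fun q => hD.image _, fun x => ?_⟩
    obtain ⟨g, hg⟩ := hcov x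
    obtain ⟨t, ht⟩ := QuotientGroup.mk_out_eq_mul N g
    have h1 : (Quotient.out (QuotientGroup.mk g : G ⧸ N) : G)⁻¹ * g ∈ N := by
      have h2 : (Quotient.out (QuotientGroup.mk g : G ⧸ N) : G) = g * t := ht
      rw [h2]
      have h3 : (g * (t : G))⁻¹ * g = (t : G)⁻¹ := by group
      rw [h3]
      exact inv_mem t.2
    refine ⟨⟨_, h1⟩, ?_⟩
    simp only [Set.mem_iUnion]
    refine ⟨QuotientGroup.mk g, g • x, hg, ?_⟩
    show _ • g • x = (_ * g) • x
    rw [mul_smul]
  locallyFinite := hG.locallyFinite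

/-- The main argument: extension of partial coincidences of rows to the right gives `ℤ × ℤ`. -/
theorem z2_of_extension (h : IsMedianGraph X) (hG : GeometricAction G X) {f : ℤ → ℤ → V}
    (hf : IsFlat X f) (n : ℕ)
    (hext : ∀ (g : G) (j j' : ℤ), (∀ i : ℤ, 0 ≤ i → i ≤ 2 * n → g • f i j = f i j') →
      ∀ i : ℤ, 0 ≤ i → g • f i j = f i j') :
    ∃ φ : Multiplicative (ℤ × ℤ) →* G, Function.Injective φ := by
  classical
  have hc := h.connected
  -- pigeonhole for the rows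
  obtain ⟨T, -, hTinf, hT⟩ := pigeonhole_infinite hG hc (κ := Fin (2 * n + 1) × Fin 2)
    (0, 0) (2 * n + 2) Set.univ Set.infinite_univ
    (fun k b => f (b.1 : ℕ) (k + (b.2 : ℕ))) (by
      rintro k ⟨a1, a2⟩
      rw [hf]
      have h1 := a1.2
      have h2 := a2.2
      simp only [Fin.val_zero]
      omega)
  have : Infinite T := hTinf.to_subtype
  -- an increasing enumeration of `T`
  let e : ℕ → ℕ := fun k => ((Nat.orderEmbeddingOfSet T k : ℕ))
  have he : StrictMono e := (Nat.orderEmbeddingOfSet T).strictMono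
  have heT : ∀ k, e k ∈ T := fun k => by
    have : e k ∈ Set.range (Nat.orderEmbeddingOfSet T) := ⟨k, rfl⟩
    rwa [Nat.orderEmbeddingOfSet_range] at this
  obtain ⟨g₁, hg₁, hnest⟩ := exists_nested h hG (isFlat_flip hf) (fun k => (e k : ℤ))
    (fun a b hab => by
      show (e a : ℤ) < e b
      exact_mod_cast he hab)
  set t₀ : ℕ := e (g₁ 0) with ht₀
  set t₁ : ℕ := e (g₁ 1) with ht₁
  have ht : t₀ < t₁ := he (hg₁ Nat.zero_lt_one)
  have hsub : horizontal X f t₁ ⊆ horizontal X f t₀ := hnest 0 1 Nat.zero_lt_one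
  obtain ⟨c, hcc⟩ := hT t₀ (heT _) t₁ (heT _)
  have hc0 : ∀ i : ℤ, 0 ≤ i → c • f i t₀ = f i t₁ := by
    apply hext
    intro i h1 h2
    have := hcc (⟨i.toNat, by omega⟩, 0)
    simpa [Int.toNat_of_nonneg h1] using this
  have hc1 : ∀ i : ℤ, 0 ≤ i → c • f i (t₀ + 1) = f i (t₁ + 1) := by
    apply hext
    intro i h1 h2
    have := hcc (⟨i.toNat, by omega⟩, 1)
    simpa [Int.toNat_of_nonneg h1] using this
  -- `c` skewers a horizontal halfspace
  have hcskew : ∀ v, c • v ∈ horizontal X f t₁ ↔ v ∈ horizontal X f t₀ := by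
    intro v
    exact smul_vertical (f := MP_140312_al_Chain.flip f) (f' := MP_140312_al_Chain.flip f) (i := t₀) (i' := t₁) (j := 0) (j' := 0)
      h hG (isFlat_flip hf) (isFlat_flip hf) (hc0 0 le_rfl) (hc1 0 le_rfl) v
  have hcord : ∀ q : ℕ, 0 < q → c ^ q ≠ 1 := by
    refine infinite_order_of_skewer (A := horizontal X f t₀) (v₁ := f 0 t₁) ?_ ?_ ?_
    · intro v hv
      exact hsub ((hcskew v).2 hv)
    · exact (mem_vertical h (isFlat_flip hf) (t₁ : ℤ) 0 t₀).2 (by exact_mod_cast ht)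
    · have h1 : c⁻¹ • f 0 t₁ = f 0 t₀ := by rw [← hc0 0 le_rfl, inv_smul_smul]
      rw [h1]
      intro h2
      exact absurd ((mem_vertical h (isFlat_flip hf) (t₀ : ℤ) 0 t₀).1 h2) (lt_irrefl _)
  -- `c` preserves the vertical halfspaces
  have hcv : ∀ i : ℤ, 0 ≤ i → ∀ v, c • v ∈ vertical X f i ↔ v ∈ vertical X f i := fun i hi v =>
    smul_vertical h hG hf hf (hc0 i hi) (hc0 (i + 1) (by omega)) v
  -- pigeonhole for the columns
  obtain ⟨S, -, hSinf, hS⟩ := pigeonhole_infinite hG hc (κ := Fin 2 × Fin (t₁ - t₀ + 1))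
    (0, 0) (t₁ - t₀ + 1) Set.univ Set.infinite_univ
    (fun k b => f (k + (b.1 : ℕ)) (t₀ + (b.2 : ℕ))) (by
      rintro k ⟨a1, a2⟩
      rw [hf]
      have h1 := a1.2
      have h2 := a2.2
      simp only [Fin.val_zero]
      omega)
  obtain ⟨s₀, hs₀⟩ := hSinf.nonempty
  choose k hk using fun s : S => hS s₀ hs₀ s s.2
  have hk0 : ∀ s : S, k s • f s₀ t₀ = f (s : ℕ) t₀ := by
    intro s
    have := hk s (0, 0)
    simpa using this
  have hk1 : ∀ s : S, k s • f (s₀ + 1) t₀ = f ((s : ℕ) + 1) t₀ := by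
    intro s
    have := hk s (1, 0)
    simpa using this
  have hk2 : ∀ s : S, k s • f s₀ t₁ = f (s : ℕ) t₁ := by
    intro s
    have := hk s (0, Fin.last _)
    simp only [Fin.val_zero, Fin.val_last, Nat.cast_zero, add_zero] at this
    rwa [show (t₀ : ℤ) + ((t₁ - t₀ : ℕ) : ℤ) = t₁ by omega] at this
  -- the obstruction to commuting lies in a finite stabiliser
  have hfix : ∀ s : S, ((k s * c)⁻¹ * (c * k s)) ∈ {g : G | g • f s₀ t₀ = f s₀ t₀} := by
    intro s
    show ((k s * c)⁻¹ * (c * k s)) • f s₀ t₀ = f s₀ t₀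
    rw [mul_smul, mul_smul, hk0, hc0 _ (by omega), inv_smul_eq_iff, mul_smul, hc0 _ (by omega),
      hk2]
  have : Infinite S := hSinf.to_subtype
  have : Finite {g : G | g • f s₀ t₀ = f s₀ t₀} := hG.finite_stabilizer _
  obtain ⟨w, hw⟩ := Finite.exists_infinite_fiber
    (fun s : S => (⟨_, hfix s⟩ : {g : G | g • f s₀ t₀ = f s₀ t₀}))
  set S' : Set ℕ := Subtype.val '' ((fun s : S => (⟨_, hfix s⟩ :
    {g : G | g • f s₀ t₀ = f s₀ t₀})) ⁻¹' {w}) with hS'
  have hS'inf : S'.Infinite := (Set.infinite_coe_iff.1 hw).image Subtype.val_injective.injOn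
  have : Infinite S' := hS'inf.to_subtype
  let e' : ℕ → ℕ := fun k => ((Nat.orderEmbeddingOfSet S' k : ℕ))
  have he' : StrictMono e' := (Nat.orderEmbeddingOfSet S').strictMono
  have heT' : ∀ k, e' k ∈ S' := fun k => by
    have : e' k ∈ Set.range (Nat.orderEmbeddingOfSet S') := ⟨k, rfl⟩
    rwa [Nat.orderEmbeddingOfSet_range] at this
  obtain ⟨g₂, hg₂, hnest'⟩ := exists_nested h hG hf (fun k => (e' k : ℤ))
    (fun a b hab => by
      show (e' a : ℤ) < e' b
      exact_mod_cast he' hab)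
  obtain ⟨s, hsw, hs⟩ := heT' (g₂ 0)
  obtain ⟨s', hsw', hs'⟩ := heT' (g₂ 1)
  have hss' : (s : ℕ) < s' := by
    rw [hs, hs']
    exact he' (hg₂ Nat.zero_lt_one)
  have hsub' : vertical X f (s' : ℕ) ⊆ vertical X f (s : ℕ) := by
    have := hnest' 0 1 Nat.zero_lt_one
    rw [hs, hs']
    exact this
  have hval : (k s * c)⁻¹ * (c * k s) = (k s' * c)⁻¹ * (c * k s') := by
    have h1 := congrArg Subtype.val (show _ = w from hsw)
    have h2 := congrArg Subtype.val (show _ = w from hsw')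
    exact h1.trans h2.symm
  -- the commuting element
  have hcomm : c * (k s' * (k s)⁻¹) = (k s' * (k s)⁻¹) * c := by
    have h1 : (k s)⁻¹ * c * k s = (k s')⁻¹ * c * k s' := by
      have h2 : c⁻¹ * ((k s)⁻¹ * c * k s) = c⁻¹ * ((k s')⁻¹ * c * k s') := by
        calc c⁻¹ * ((k s)⁻¹ * c * k s) = (k s * c)⁻¹ * (c * k s) := by group
          _ = (k s' * c)⁻¹ * (c * k s') := hval
          _ = c⁻¹ * ((k s')⁻¹ * c * k s') := by group
      exact mul_left_cancel h2
    calc c * (k s' * (k s)⁻¹) = k s' * ((k s')⁻¹ * c * k s') * (k s)⁻¹ := by group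
      _ = k s' * ((k s)⁻¹ * c * k s) * (k s)⁻¹ := by rw [h1]
      _ = (k s' * (k s)⁻¹) * c := by group
  have hu0 : (k s' * (k s)⁻¹) • f (s : ℕ) t₀ = f (s' : ℕ) t₀ := by
    rw [← hk0 s, mul_smul, inv_smul_smul, hk0]
  have hu1 : (k s' * (k s)⁻¹) • f ((s : ℕ) + 1) t₀ = f ((s' : ℕ) + 1) t₀ := by
    rw [← hk1 s, mul_smul, inv_smul_smul, hk1]
  have hus : ∀ v, (k s' * (k s)⁻¹) • v ∈ vertical X f (s' : ℕ) ↔ v ∈ vertical X f (s : ℕ) :=
    fun v => smul_vertical h hG hf hf hu0 hu1 v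
  refine z2_of_commute hcomm (vertical X f (s : ℕ)) (hcv _ (by omega)) ?_ (f (s' : ℕ) t₀) ?_ ?_
    hcord
  · intro v hv
    exact hsub' ((hus v).2 hv)
  · rw [mem_vertical h hf]
    exact_mod_cast hss'
  · rw [show (k s' * (k s)⁻¹)⁻¹ • f (s' : ℕ) t₀ = f (s : ℕ) t₀ by rw [← hu0, inv_smul_smul],
      mem_vertical h hf]
    exact lt_irrefl _

/-- Separable windows of vertical halfspaces along one flat give `ℤ × ℤ`. -/
theorem z2_of_separable (h : IsMedianGraph X) (hG : GeometricAction G X) {f : ℤ → ℤ → V}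
    (hf : IsFlat X f) (n : ℕ) (hsep : ∀ a, IsSeparable (window G (vertical X f) a n)) :
    ∃ φ : Multiplicative (ℤ × ℤ) →* G, Function.Injective φ := by
  obtain ⟨N, hN, hNw⟩ := exists_uniform h hG hf n hsep
  obtain ⟨φ, hφ⟩ := z2_of_extension h (geometricAction_subgroup hG N hN) hf n
    (fun g j j' h0 => extend_right h hG hf hNw g.2 h0)
  exact ⟨N.subtype.comp φ, (Subtype.val_injective).comp hφ⟩

/-- Flat closing for separable windows. -/
theorem z2_or_hyperbolic (h : IsMedianGraph X) (hG : GeometricAction G X)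
    (hsep : ∀ f, IsFlat X f → (∃ n, ∀ a, IsSeparable (window G (vertical X f) a n)) ∨
      (∃ n, ∀ a, IsSeparable (window G (horizontal X f) a n))) :
    (∃ φ : Multiplicative (ℤ × ℤ) →* G, Function.Injective φ) ∨ IsHyperbolic X := by
  refine or_iff_not_imp_right.2 fun hnh => ?_
  have hex : ∃ f : ℤ → ℤ → V, IsFlat X f := by
    by_contra hex
    exact hnh (isHyperbolic_of_no_flat h hG hex)
  obtain ⟨f, hf⟩ := hex
  rcases hsep f hf with ⟨n, hn⟩ | ⟨n, hn⟩
  · exact z2_of_separable h hG hf n hn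
  · exact z2_of_separable h hG (isFlat_flip hf) n hn

end Pool.Agent.Lib.MP_140312_al_Sep
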