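import Pool.Agent.Lib.MP_140312_al_Sep.Defs
import Pool.Agent.Lib.MP_140312_al_Chain.Chain
import Pool.Agent.Lib.MP_140312_al_Chain.Cyclic

/-!
# Separable windows: a finite index subgroup without self-osculation along a flat
-/

namespace Pool.Agent.Lib.MP_140312_al_Sep

open Pool.Agent.Lib.MP_140312_al Pool.Agent.Lib.MP_140312_al_Chain

variable {V : Type*} {G : Type*} [Group G] [MulAction G V] {X : SimpleGraph V}

/-- A separable subgroup is separated from a finite set by one subgroup of finite index. -/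
lemma IsSeparable.finite {H : Subgroup G} (hH : IsSeparable H) {S : Set G} (hS : S.Finite)
    (hdisj : ∀ g ∈ S, g ∉ H) : ∃ K : Subgroup G, K.FiniteIndex ∧ H ≤ K ∧ ∀ g ∈ S, g ∉ K := by
  have : Finite S := hS
  choose K hK1 hK2 hK3 using fun g : S => hH g (hdisj g g.2)
  refine ⟨⨅ g, K g, ?_, le_iInf hK2, fun g hg hgK => ?_⟩
  · exact Subgroup.finiteIndex_iInf hK1
  · exact hK3 ⟨g, hg⟩ (Subgroup.mem_iInf.1 hgK _)

/-- The halfspaces of the window of radius `n` about `a` as a sequence. -/
def seq (hh : ℤ → Set V) (a : ℤ) (n : ℕ) : ℕ → Set V := fun i => hh (a - n + i)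

/-- If the window of radius `n` about `a` is separable, then an element of a suitable normal
subgroup of finite index that maps a row crossing the window to another such row belongs to the
window. -/
lemma exists_normal (h : IsMedianGraph X) (hG : GeometricAction G X) (hh : ℤ → Set V) (a : ℤ)
    (n : ℕ) (hsep : IsSeparable (window G hh a n)) :
    ∃ N : Subgroup G, N.Normal ∧ N.FiniteIndex ∧ ∀ g ∈ N, ∀ v ∈ Rows X (2 * n + 1) (seq hh a n),
      g • v ∈ Rows X (2 * n + 1) (seq hh a n) → g ∈ window G hh a n := by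
  classical
  obtain ⟨F, hFR, hF, hcov⟩ := rows_cocompact hG h.connected (2 * n + 1) (seq hh a n)
  have hwin : commonStab G {A | ∃ i < 2 * n + 1, A = seq hh a n i} = window G hh a n :=
    (window_eq hh a n).symm
  rw [hwin] at hcov
  -- finitely many elements between points of `F`
  set S : Set G := {γ | ∃ w ∈ F, γ • w ∈ F ∧ γ ∉ window G hh a n} with hS
  have hSf : S.Finite := by
    have h1 : S ⊆ ⋃ w ∈ F, ⋃ w' ∈ F, {γ : G | γ • w = w'} := by
      rintro γ ⟨w, hw, hw', _⟩
      simp only [Set.mem_iUnion]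
      exact ⟨w, hw, _, hw', rfl⟩
    refine (hF.biUnion fun w _ => hF.biUnion fun w' _ => ?_).subset h1
    refine (finite_displacement hG h.connected w (X.dist w w')).subset ?_
    intro γ hγ
    have hγ' : γ • w = w' := hγ
    show X.dist w (γ • w) ≤ _
    rw [hγ']
  obtain ⟨K, hK, hMK, hKS⟩ := hsep.finite hSf (fun g hg => by
    obtain ⟨_, _, _, h3⟩ := hg
    exact h3)
  refine ⟨K.normalCore, inferInstance, inferInstance, fun g hg v hv hgv => ?_⟩
  have hgK : g ∈ K := K.normalCore_le hg
  obtain ⟨k, hk, hkv⟩ := hcov v hv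
  obtain ⟨k', hk', hkv'⟩ := hcov _ hgv
  have hγK : k' * g * k⁻¹ ∈ K := K.mul_mem (K.mul_mem (hMK hk') hgK) (K.inv_mem (hMK hk))
  have hγ : k' * g * k⁻¹ ∈ window G hh a n := by
    by_contra hcon
    refine hKS _ ⟨k • v, hkv, ?_, hcon⟩ hγK
    rw [mul_smul, inv_smul_smul, mul_smul]
    exact hkv'
  have h2 : g = k'⁻¹ * (k' * g * k⁻¹) * k := by group
  rw [h2]
  exact mul_mem (mul_mem (inv_mem hk') hγ) hk

/-- One subgroup of finite index works for all windows of a flat. -/
lemma exists_uniform (h : IsMedianGraph X) (hG : GeometricAction G X) {f : ℤ → ℤ → V}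
    (hf : IsFlat X f) (n : ℕ) (hsep : ∀ a, IsSeparable (window G (vertical X f) a n)) :
    ∃ N : Subgroup G, N.FiniteIndex ∧ ∀ a, ∀ g ∈ N,
      ∀ v ∈ Rows X (2 * n + 1) (seq (vertical X f) a n),
      g • v ∈ Rows X (2 * n + 1) (seq (vertical X f) a n) → g ∈ window G (vertical X f) a n := by
  classical
  have hc := h.connected
  choose N hN1 hN2 hN3 using fun a => exists_normal h hG (vertical X f) a n (hsep a)
  -- finitely many classes of windows
  obtain ⟨D, hD, hcov⟩ := hG.cocompact
  set B : Set V := ⋃ x ∈ D, {y | X.dist x y ≤ n + 1} with hB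
  have hBf : B.Finite := hD.biUnion fun x _ => ball_finite hG hc x (n + 1)
  have : Finite B := hBf
  choose g hg using hcov
  have hmem : ∀ (a : ℤ) (i : Fin (2 * n + 2)), g (f a 0) • f (a - n + (i : ℕ)) 0 ∈ B := by
    intro a i
    simp only [hB, Set.mem_iUnion]
    refine ⟨g (f a 0) • f a 0, hg _, ?_⟩
    show X.dist _ _ ≤ n + 1
    rw [dist_smul hG hc, hf]
    have := i.2
    omega
  let φ : ℤ → (Fin (2 * n + 2) → B) := fun a i => ⟨g (f a 0) • f (a - n + (i : ℕ)) 0, hmem a i⟩
  obtain ⟨A, _, hA, hAr⟩ := exists_finite_reps Set.univ φ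
  have : Finite A := hA
  refine ⟨⨅ a : A, N a, Subgroup.finiteIndex_iInf fun a => hN2 a, ?_⟩
  intro a γ hγ v hv hγv
  obtain ⟨b, hb, hba⟩ := hAr a trivial
  have hval : ∀ i : ℕ, i < 2 * n + 2 →
      ((g (f a 0))⁻¹ * g (f b 0)) • f (b - n + i) 0 = f (a - n + i) 0 := by
    intro i hi
    have := congrArg Subtype.val (congrFun hba ⟨i, hi⟩)
    simp only [φ] at this
    rw [mul_smul, this, inv_smul_smul]
  set H : G := (g (f a 0))⁻¹ * g (f b 0) with hH
  -- `H` maps the window about `b` to the window about `a`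
  have hHv : ∀ i : ℤ, |i| ≤ n → ∀ v, H • v ∈ vertical X f (i + a) ↔ v ∈ vertical X f (i + b) := by
    intro i hi v
    rw [abs_le] at hi
    refine smul_vertical (j := 0) (j' := 0) h hG hf hf ?_ ?_ v
    · have := hval (i + n).toNat (by omega)
      rwa [show b - n + ((i + n).toNat : ℤ) = i + b by omega,
        show a - n + ((i + n).toNat : ℤ) = i + a by omega] at this
    · have := hval (i + n + 1).toNat (by omega)
      rwa [show b - n + ((i + n + 1).toNat : ℤ) = i + b + 1 by omega,
        show a - n + ((i + n + 1).toNat : ℤ) = i + a + 1 by omega] at this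
  have hHrow : ∀ w, H • w ∈ Rows X (2 * n + 1) (seq (vertical X f) a n) ↔
      w ∈ Rows X (2 * n + 1) (seq (vertical X f) b n) := by
    intro w
    apply smul_rows hG hc
    intro i hi v
    have := hHv (i - n) (by rw [abs_le]; omega) v
    rwa [show (i : ℤ) - n + a = a - n + i by ring, show (i : ℤ) - n + b = b - n + i by ring] at this
  rw [mem_window_conj (hh := vertical X f) (a := b) (H := H) hHv]
  have hγ' : H⁻¹ * γ * H ∈ N b := by
    have h1 : γ ∈ N b := Subgroup.mem_iInf.1 hγ ⟨b, hb⟩
    have := (hN1 b).conj_mem γ h1 H⁻¹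
    simpa using this
  refine hN3 b _ hγ' (H⁻¹ • v) ?_ ?_
  · rw [← hHrow, smul_inv_smul]; exact hv
  · rw [← hHrow]
    have h3 : H • (H⁻¹ * γ * H) • H⁻¹ • v = γ • v := by
      rw [← mul_smul, ← mul_smul]
      congr 1
      group
    rw [h3]
    exact hγv

lemma mem_rows_flat (h : IsMedianGraph X) {f : ℤ → ℤ → V} (hf : IsFlat X f) (a j : ℤ) (n : ℕ) :
    f (a - n) j ∈ Rows X (2 * n + 1) (seq (vertical X f) a n) := by
  rw [mem_rows_iff]
  refine ⟨fun i => f (a - n + (i : ℕ)) j, by simp, fun i hi => ?_⟩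
  have h1 : a - n + ((i + 1 : ℕ) : ℤ) = a - n + i + 1 := by push_cast; ring
  beta_reduce
  rw [h1]
  exact ⟨(adj_vertical hf _ _).symm, vertical_eq h hf _ _⟩

/-- Two edges at a vertex with the same halfspace coincide. -/
lemma eq_of_halfspace_eq {x y z : V} (hc : X.Connected) (hyx : X.Adj y x)
    (heq : halfspace X y x = halfspace X z x) : y = z := by
  have h1 : y ∈ halfspace X y x := by
    show X.dist y y < X.dist y x
    rw [SimpleGraph.dist_eq_one_iff_adj.2 hyx]
    simp
  rw [heq] at h1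
  have h2 : X.dist y z < X.dist y x := h1
  rw [SimpleGraph.dist_eq_one_iff_adj.2 hyx] at h2
  exact (hc.dist_eq_zero_iff).1 (by omega)

/-- Extension of partial coincidences of rows to the right. -/
lemma extend_right (h : IsMedianGraph X) (hG : GeometricAction G X) {f : ℤ → ℤ → V}
    (hf : IsFlat X f) {n : ℕ} {N : Subgroup G}
    (hN : ∀ a, ∀ g ∈ N, ∀ v ∈ Rows X (2 * n + 1) (seq (vertical X f) a n),
      g • v ∈ Rows X (2 * n + 1) (seq (vertical X f) a n) → g ∈ window G (vertical X f) a n)
    {g : G} (hg : g ∈ N) {j j' : ℤ} (h0 : ∀ i : ℤ, 0 ≤ i → i ≤ 2 * n → g • f i j = f i j') :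
    ∀ i : ℤ, 0 ≤ i → g • f i j = f i j' := by
  have hc := h.connected
  have key : ∀ k : ℕ, ∀ i : ℤ, 0 ≤ i → i ≤ 2 * n + k → g • f i j = f i j' := by
    intro k
    induction k with
    | zero => intro i h1 h2; exact h0 i h1 (by simpa using h2)
    | succ k ih =>
      intro i hi1 hi2
      by_cases hi : i ≤ 2 * n + k
      · exact ih i hi1 hi
      have hi' : i = 2 * n + k + 1 := by push_cast at hi2; omega
      -- the window about `a = n + k`
      have hwin : g ∈ window G (vertical X f) (n + k) n := by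
        refine hN (n + k) g hg (f ((n + k : ℤ) - n) j) (mem_rows_flat h hf _ _ _) ?_
        rw [ih _ (by omega) (by omega)]
        exact mem_rows_flat h hf _ _ _
      have h1 := mem_window.1 hwin (2 * n + k) (by rw [abs_le]; omega)
      have h2 : g • f (2 * n + k) j = f (2 * n + k) j' := ih _ (by omega) (by omega)
      subst hi'
      refine eq_of_halfspace_eq hc (x := f (2 * n + k) j') ?_ ?_
      · rw [← h2]
        exact (hG.adj_iff g _ _).2 (adj_vertical hf _ _)
      · rw [vertical_eq h hf]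
        ext v
        obtain ⟨v, rfl⟩ : ∃ v', v = g • v' := ⟨g⁻¹ • v, by rw [smul_inv_smul]⟩
        rw [h1 v, ← h2, smul_mem_halfspace hG hc, vertical_eq h hf]
  intro i hi
  exact key i.toNat i hi (by omega)

end Pool.Agent.Lib.MP_140312_al_Sep
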